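import Mathlib

set_option autoImplicit false

namespace Pool.Agent.Results.MP_2bd3fb_al.Counter

open Equiv Finset Filter

universe u

/-- `G` is isomorphic to the derived subgroup of some group in universe `u` -/
def Integrable (G : Type) [Group G] : Prop :=
  ∃ (H : Type u) (_ : Group H), Nonempty (commutator H ≃* G)

abbrev S := Perm (Fin 3)
def t : S := swap 0 1
def r : S := swap 0 1 * swap 1 2

theorem even_int (Q : Type) [CommGroup Q] [Fintype Q] [DecidableEq Q] (w : S ≀ᵣ Q) :
    w ∈ commutator (S ≀ᵣ Q) ↔ w.right = 1 ∧ ∏ q, Perm.sign (w.left q) = 1 := by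
  constructor
  · intro h
    let Φ : S ≀ᵣ Q →* Q × ℤˣ := MonoidHom.mk' (fun w => (w.right, ∏ q, Perm.sign (w.left q))) (by
      intro a b
      refine Prod.ext rfl ?_
      simp only [RegularWreathProduct.mul_left, Pi.mul_apply, map_mul, prod_mul_distrib,
        Prod.snd_mul]
      exact congrArg _ (Equiv.prod_comp (Equiv.mulLeft a.2⁻¹) fun q => Perm.sign (b.1 q)))
    exact Prod.ext_iff.mp (Abelianization.commutator_subset_ker Φ h)
  · rintro ⟨h1, h2⟩
    let b : (Q → S) →* S ≀ᵣ Q := MonoidHom.mk' (fun a => ⟨a, 1⟩) fun a c => by ext <;> simp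
    let π := Abelianization.of.comp b
    let θ := π.comp (MonoidHom.mulSingle (fun _ : Q => S) 1)
    have k1 : ∀ s, Perm.sign s = 1 → θ s = 1 := by
      intro s hs
      have : ∀ s : S, Perm.sign s = 1 → s ^ 3 = 1 ∧ t * s * t⁻¹ * s = 1 := by decide
      obtain ⟨a1, a2⟩ := this s hs
      have a3 := congrArg θ a1
      have a4 := congrArg θ a2
      simp only [map_mul, map_inv, map_pow, map_one, mul_inv_cancel_comm] at a3 a4
      rwa [pow_succ, sq, a4, one_mul] at a3
    have k2 : θ t * θ t = 1 := by rw [← map_mul]; exact k1 _ (by decide)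
    let ψ : ℤˣ →* Abelianization (S ≀ᵣ Q) := MonoidHom.mk' (fun u => if u = 1 then 1 else θ t) (by
      intro a c
      rcases Int.units_eq_one_or a with rfl | rfl <;> rcases Int.units_eq_one_or c with rfl | rfl <;>
        simp [k2])
    have k3 : π = ψ.comp (∏ q : Q, Perm.sign.comp (Pi.evalMonoidHom (fun _ => S) q)) := by
      refine MonoidHom.pi_ext fun q s => ?_
      have e1 : π (Pi.mulSingle q s) = θ s := by
        have : b (Pi.mulSingle q s) = RegularWreathProduct.inl q * b (Pi.mulSingle 1 s) *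
            (RegularWreathProduct.inl q)⁻¹ := by
          ext x <;> simp [b, Pi.mulSingle_apply, inv_mul_eq_one, eq_comm]
        simp [π, θ, this]
      have e2 : ∏ x, Perm.sign ((Pi.mulSingle q s : Q → S) x) = Perm.sign s := by
        rw [prod_eq_single q (fun x _ h => by simp [h]) (by simp)]
        simp
      simp only [e1, MonoidHom.comp_apply, MonoidHom.finsetProd_apply, Pi.evalMonoidHom_apply, e2]
      change _ = if _ then _ else _
      split_ifs with h
      · exact k1 s h
      · have := k1 (s * t) (by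
          rw [map_mul, (Int.units_eq_one_or _).resolve_left h]; decide)
        rw [map_mul] at this
        exact (eq_inv_of_mul_eq_one_left this).trans (inv_eq_of_mul_eq_one_left k2)
    have : w = b w.left := by ext <;> simp [b, h1]
    rw [← Abelianization.ker_of, MonoidHom.mem_ker, this]
    change π _ = 1
    simp [k3, h2]

def K (N : ℕ) : Subgroup (ℕ → S) where
  carrier := {f | (∀ n, 2 * N ≤ n → f n = f (2 * N)) ∧ ∏ i ∈ range (2 * N + 1), Perm.sign (f i) = 1}
  one_mem' := ⟨fun _ _ => rfl, by simp⟩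
  mul_mem' ha hb := ⟨fun n h => by simp [ha.1 n h, hb.1 n h], by simp [prod_mul_distrib, ha.2, hb.2]⟩
  inv_mem' ha := ⟨fun n h => by simp [ha.1 n h], by simpa using ha.2⟩

theorem K_mono : Monotone K := monotone_nat_of_le_succ fun N f hf =>
  ⟨fun n h => by rw [hf.1 n (by omega), hf.1 (2 * (N + 1)) (by omega)], by
    rw [show 2 * (N + 1) + 1 = 2 * N + 1 + 1 + 1 by ring, prod_range_succ, prod_range_succ, hf.2,
      hf.1 _ (show 2 * N ≤ 2 * N + 1 by omega), hf.1 _ (show 2 * N ≤ 2 * N + 1 + 1 by omega)]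
    simp⟩

def G : Subgroup (ℕ → S) := ⨆ N, K N

theorem memG {f : ℕ → S} : f ∈ G ↔ ∃ N, f ∈ K N :=
  Subgroup.mem_iSup_of_directed K_mono.directed_le

theorem K_int (N : ℕ) : Finite ((K N).subgroupOf G) ∧ Integrable.{0} ((K N).subgroupOf G) := by
  let Q := Multiplicative (Fin (2 * N + 1))
  let ι : (K N).subgroupOf G →* S ≀ᵣ Q :=
    MonoidHom.mk' (fun f => ⟨fun q => f.1.1 (Multiplicative.toAdd q).1, 1⟩) fun a b => by
      ext <;> simp
  have h1 : Function.Injective ι := by
    refine (injective_iff_map_eq_one ι).mpr fun f hf => Subtype.ext (Subtype.ext (funext fun n => ?_))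
    have k : ∀ q : Fin (2 * N + 1), f.1.1 q = 1 := fun q =>
      congrFun (congrArg RegularWreathProduct.left hf) (Multiplicative.ofAdd q)
    rcases le_total n (2 * N) with h | h
    · exact k ⟨n, by omega⟩
    · exact (f.2.1 n h).trans (k ⟨2 * N, by omega⟩)
  have h2 : commutator (S ≀ᵣ Q) = ι.range := by
    ext w
    rw [even_int]
    constructor
    · rintro ⟨a1, a2⟩
      have : (fun n => w.left (Multiplicative.ofAdd ⟨min n (2 * N), by omega⟩)) ∈ K N :=
        ⟨fun n h => by simp [h], by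
          rw [← a2, prod_range]
          exact Fintype.prod_equiv Multiplicative.ofAdd _ _ fun i => by
            simp [Nat.lt_succ_iff.mp i.2]⟩
      refine ⟨⟨⟨_, memG.mpr ⟨N, this⟩⟩, this⟩, ?_⟩
      ext q : 2
      · simp [ι, Nat.lt_succ_iff.mp (Multiplicative.toAdd q).2]
      · exact a1.symm
    · rintro ⟨f, rfl⟩
      refine ⟨rfl, ?_⟩
      rw [← f.2.2, prod_range]
      exact (Fintype.prod_equiv Multiplicative.ofAdd _ _ fun i => rfl).symm
  exact ⟨Finite.of_injective ι h1, S ≀ᵣ Q, inferInstance,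
    ⟨(MulEquiv.subgroupCongr h2).trans (MonoidHom.ofInjective h1).symm⟩⟩

theorem ex_lim : ∃ lim : G →* S, ∀ f : G, ∀ᶠ n in atTop, f.1 n = lim f := by
  have : ∀ f : G, ∃ s, ∀ᶠ n in atTop, f.1 n = s := fun f => by
    obtain ⟨N, h⟩ := memG.mp f.2
    exact ⟨_, eventually_atTop.mpr ⟨_, h.1⟩⟩
  choose l hl using this
  refine ⟨MonoidHom.mk' l fun a b => ?_, hl⟩
  obtain ⟨n, h1, h2, h3⟩ := ((hl (a * b)).and ((hl a).and (hl b))).exists
  rw [← h1, ← h2, ← h3]
  rfl

theorem fc (lim : G →* S) (hl : ∀ f : G, ∀ᶠ n in atTop, f.1 n = lim f) (f : G) (h : f ^ 3 = 1) :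
    {x | IsConj f x}.Finite ↔ lim f = 1 := by
  obtain ⟨M, hM⟩ := eventually_atTop.mp (hl f)
  constructor
  · intro hf
    by_contra hn
    have h1 : t * lim f * t⁻¹ ≠ lim f := by
      have : ∀ s : S, s ^ 3 = 1 → s ≠ 1 → t * s * t⁻¹ ≠ s := by decide
      exact this _ (by rw [← map_pow, h, map_one]) hn
    have h2 : ∀ k, Pi.mulSingle 0 t * Pi.mulSingle (k + M + 1) t ∈ G := fun k =>
      memG.mpr ⟨k + M + 1, fun n hn => by
        simp [Pi.mulSingle_apply, show n ≠ 0 by omega, show n ≠ k + M + 1 by omega,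
          show 2 * (k + M + 1) ≠ k + M + 1 by omega], by
        simp only [Pi.mul_apply, map_mul, prod_mul_distrib]
        rw [prod_eq_single 0 (fun x _ h => by simp [h]) (by simp),
          prod_eq_single (k + M + 1) (fun x _ h => by simp [h]) (by simp)]
        simp⟩
    refine Set.infinite_of_injective_forall_mem
      (f := fun k => (⟨_, h2 k⟩ : G) * f * (⟨_, h2 k⟩ : G)⁻¹) (fun a b e => ?_)
      (fun k => isConj_iff.mpr ⟨_, rfl⟩) hf
    by_contra hab
    have := congrArg (fun g : G => g.1 (a + M + 1)) e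
    simp [hM (a + M + 1) (by omega), hab] at this
    exact h1 (by rw [mul_inv_eq_iff_eq_mul, ← mul_inv_eq_iff_eq_mul]; exact this)
  · intro h1
    refine Set.Finite.of_finite_image (f := fun (x : G) (i : Fin M) => x.1 i) (Set.toFinite _) ?_
    have k : ∀ x, IsConj f x → ∀ n, M ≤ n → x.1 n = 1 := by
      intro x hx n hn
      obtain ⟨c, rfl⟩ := isConj_iff.mp hx
      simp [hM n hn, h1]
    intro x hx y hy e
    refine Subtype.ext (funext fun n => ?_)
    rcases lt_or_ge n M with h2 | h2
    · exact congrFun e ⟨n, h2⟩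
    · rw [k x hx n h2, k y hy n h2]

theorem not_int : ¬ Integrable.{u} G := by
  classical
  rintro ⟨H, _, ⟨e⟩⟩
  obtain ⟨lim, hl⟩ := ex_lim
  let c : G := ⟨fun _ => r, memG.mpr ⟨0, fun _ _ => rfl, by decide⟩⟩
  have c3 : c ^ 3 = 1 := Subtype.ext (funext fun _ => show r ^ 3 = 1 by decide)
  have cl : lim c = r := (hl c).exists.choose_spec.symm
  have tri : ∀ s : S, s ^ 3 = 1 → s = 1 ∨ s = r ∨ s = r⁻¹ := by decide
  have k0 : ∀ (φ : MulAut G) (v : G), v ^ 3 = 1 → lim v = 1 → lim (φ v) = 1 := by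
    intro φ v h1 h2
    refine (fc lim hl _ (by rw [← map_pow, h1, map_one])).mp
      ((((fc lim hl v h1).mpr h2).image φ).subset fun x hx => ⟨φ.symm x, ?_, by simp⟩)
    simpa using φ.symm.toMonoidHom.map_isConj hx
  have k1 : ∀ φ : MulAut G, lim (φ c) = r ∨ lim (φ c) = r⁻¹ := fun φ => by
    refine (tri _ (by rw [← map_pow, ← map_pow, c3, map_one, map_one])).resolve_left fun h => ?_
    have := k0 φ.symm _ (by rw [← map_pow, c3, map_one]) h
    rw [φ.symm_apply_apply, cl] at this
    exact absurd this (by decide)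
  have m3 : ∀ v w : G, v ^ 3 = 1 → w ^ 3 = 1 → (v * w) ^ 3 = 1 := fun v w h1 h2 => by
    have : ∀ s s' : S, s ^ 3 = 1 → s' ^ 3 = 1 → (s * s') ^ 3 = 1 := fun s s' a b => by
      rcases tri s a with rfl | rfl | rfl <;> rcases tri s' b with rfl | rfl | rfl <;> decide
    exact Subtype.ext (funext fun n => this _ _ (congrFun (congrArg Subtype.val h1) n)
      (congrFun (congrArg Subtype.val h2) n))
  have rr : r⁻¹ ≠ r := by decide
  let l : MulAut G →* ℤˣ := MonoidHom.mk' (fun φ => if lim (φ c) = r then 1 else -1) (by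
    intro a b
    have b3 : b c ^ 3 = 1 := by rw [← map_pow, c3, map_one]
    rw [MulAut.mul_apply]
    rcases k1 b with h | h
    · have := k0 a (b c * c⁻¹) (m3 _ _ b3 (by rw [inv_pow, c3, inv_one])) (by simp [h, cl])
      rw [map_mul, map_mul, map_inv, map_inv, mul_inv_eq_one] at this
      simp [this, h]
    · have := k0 a (b c * c) (m3 _ _ b3 c3) (by simp [h, cl])
      rw [map_mul, map_mul, mul_eq_one_iff_eq_inv] at this
      rcases k1 a with h' | h' <;> simp [this, h, h', rr])
  let g : G := ⟨fun n => if n = 0 then 1 else t, memG.mpr ⟨1, fun n h => by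
    simp [show n ≠ 0 by omega], by decide⟩⟩
  have gl : lim g = t := by
    obtain ⟨n, h1, h2⟩ := ((hl g).and (eventually_ne_atTop 0)).exists
    rw [← h1]
    exact if_neg h2
  have := Abelianization.commutator_subset_ker
    (l.comp ((MulAut.congr e).toMonoidHom.comp MulAut.conjNormal)) (e.symm g).2
  have e1 : e (MulAut.conjNormal (e.symm g).1 (e.symm c)) = g * c * g⁻¹ := by
    rw [show MulAut.conjNormal (e.symm g).1 (e.symm c) = e.symm g * e.symm c * (e.symm g)⁻¹ from rfl]
    simp
  change (if lim (e (MulAut.conjNormal (e.symm g).1 (e.symm c))) = r then (1 : ℤˣ) else -1) = 1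
    at this
  rw [e1, map_mul, map_mul, map_inv, gl, cl] at this
  exact absurd this (by decide)

theorem result : ∃ (G : Type) (_ : Group G),
    (∀ T : Set G, T.Finite → Finite (Subgroup.closure T)) ∧
    (∀ T : Set G, T.Finite → ∃ K : Subgroup G, T ⊆ K ∧ Integrable.{0} K) ∧
    ¬ Integrable.{u} G := by
  have : ∀ T : Set G, T.Finite → ∃ N, T ⊆ (K N).subgroupOf G := by
    intro T hT
    choose n hn using fun f : G => memG.mp f.2
    obtain ⟨N, hN⟩ := (hT.image n).bddAbove
    exact ⟨N, fun f hf => K_mono (hN ⟨f, hf, rfl⟩) (hn f)⟩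
  refine ⟨G, inferInstance, fun T hT => ?_, fun T hT => ?_, not_int⟩
  · obtain ⟨N, h⟩ := this T hT
    have := (K_int N).1
    exact Finite.of_injective _ (Subgroup.inclusion_injective ((Subgroup.closure_le _).mpr h))
  · obtain ⟨N, h⟩ := this T hT
    exact ⟨_, h, (K_int N).2⟩

end Pool.Agent.Results.MP_2bd3fb_al.Counter
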